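import Pool.Agent.MWGX.StmtsB

/-!
# Row GLG of block MWGX (MP_23468a_al): exchange, positions relative to a light letter
-/

set_option autoImplicit false

namespace Pool.Agent.MWGX.H89

open Pool.Agent.Helper14_MV Pool.Agent.Helper2_MV
open Pool.Agent.MWK (pre)
open Pool.Agent.MWGN (nn)
open Pool.Agent.MWGQ (pw)

theorem nmem_pw {k q : ℕ} {Z : List ℕ} (h : q ∉ Z) : q ∉ pw k Z := fun h' => h (mem_pw h')

theorem c0 {q : ℕ} {A : List ℕ} (h : q ∉ A) : A.count q = 0 := List.count_eq_zero.2 h

theorem c1 {q : ℕ} {A : List ℕ} (h : q ∈ A) : 1 ≤ A.count q := List.count_pos_iff.2 h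

theorem glg : GlgStmt := by
  intro n c p Z A B F G H w w' hn hE hG d q s hs hqs hds hq hd
  obtain ⟨e, e'⟩ := hE
  unfold nn at hq hd ⊢
  obtain ⟨R, hR⟩ : ∃ R, R = F ++ (A ++ (G ++ (B ++ H))) := ⟨_, rfl⟩
  rw [← hR] at e e'
  -- counts
  have cL : ∀ x, (gL n c Z A B).count x = 3 * (n * Z.count x) + c * Z.count x + A.count x +
      B.count x := by
    intro x
    unfold gL
    simp only [List.count_append, count_pw]
    ring
  have cR : ∀ x, (gR n c Z A B).count x = 3 * (n * Z.count x) + 2 * (c * Z.count x) +
      (n - 1) * c * Z.count x + A.count x + B.count x := by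
    intro x
    unfold gR
    simp only [List.count_append, count_pw]
    ring
  have cw : ∀ x, w.count x = p.count x + ((gL n c Z A B).count x + R.count x) := by
    intro x; rw [e, List.count_append, List.count_append]
  have cw' : ∀ x, w'.count x = p.count x + ((gR n c Z A B).count x + R.count x) := by
    intro x; rw [e', List.count_append, List.count_append]
  have cRr : ∀ x, R.count x = F.count x + (A.count x + (G.count x + (B.count x + H.count x))) := by
    intro x; rw [hR]; simp only [List.count_append]
  have hz : ∀ x, Z.count x = 0 ∨ 2 ≤ n * Z.count x := by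
    intro x
    rcases Nat.eq_zero_or_pos (Z.count x) with h | h
    · exact Or.inl h
    · exact Or.inr (by nlinarith)
  -- `s` is not in the exchanged part
  have sZ : s ∉ Z := by
    intro h
    have h1 := c1 h
    have h2 := cw s
    rw [cL, hs] at h2
    rcases hz s with h3 | h3 <;> omega
  have sA : s ∉ A := by
    intro h
    have h1 := c1 h
    have h2 := cw s
    rw [cL, hs, cRr] at h2
    omega
  have sB : s ∉ B := by
    intro h
    have h1 := c1 h
    have h2 := cw s
    rw [cL, hs, cRr] at h2
    omega
  have sG : s ∉ G := by
    intro h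
    have h1 := hG s h
    omega
  have sL : s ∉ gL n c Z A B := by
    intro h
    have h1 := c1 h
    rw [cL, c0 sZ, c0 sA, c0 sB] at h1
    simp at h1
  -- the number of `d`
  obtain ⟨z, hzd⟩ : ∃ z, z = Z.count d := ⟨_, rfl⟩
  obtain ⟨a1, ha1⟩ : ∃ a1, a1 = n * z := ⟨_, rfl⟩
  obtain ⟨a2, ha2⟩ : ∃ a2, a2 = c * z := ⟨_, rfl⟩
  obtain ⟨a3, ha3⟩ : ∃ a3, a3 = (n - 1) * c * z := ⟨_, rfl⟩
  have hzz : (z = 0 ∧ a1 = 0 ∧ a2 = 0 ∧ a3 = 0) ∨ 2 ≤ a1 := by
    rcases Nat.eq_zero_or_pos z with h | h
    · subst h
      exact Or.inl ⟨rfl, by simpa using ha1, by simpa using ha2, by simpa using ha3⟩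
    · exact Or.inr (by rw [ha1]; nlinarith)
  have dL := cL d
  have dR := cR d
  rw [← hzd, ← ha1, ← ha2] at dL
  rw [← hzd, ← ha1, ← ha2, ← ha3] at dR
  have dw := cw d
  have dw' := cw' d
  rw [dL] at dw
  rw [dR] at dw'
  by_cases hqp : q ∈ p
  · have e1 : pre w q = pre p q := by rw [e]; exact MWK.pre_append_mem hqp _
    have e2 : pre w' q = pre p q := by rw [e']; exact MWK.pre_append_mem hqp _
    rw [e1, e2]
    have h1 := MWK.count_pre_le p d q
    refine ⟨Iff.rfl, Iff.rfl, ?_⟩
    rw [dw, dw']
    rcases hzz with ⟨_, h2, h3, h4⟩ | h2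
    · constructor <;> intro h5 <;> omega
    · constructor <;> intro h5 <;> omega
  · -- `q ∉ p`
    have sp : s ∉ p := by
      intro h
      have e1 : pre w s = pre p s := by rw [e]; exact MWK.pre_append_mem h _
      rw [e1] at hq
      have h1 := MWK.count_pre_le p q s
      have h2 := c0 hqp
      omega
    have e1 : pre w s = p ++ (gL n c Z A B ++ pre R s) := by
      rw [e, MWK.pre_append sp, MWK.pre_append sL]
    rw [e1, List.count_append, List.count_append, cL, c0 hqp] at hq
    have qZ : q ∉ Z := by
      intro h
      have h1 := c1 h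
      rcases hz q with h2 | h2 <;> omega
    rw [c0 qZ] at hq
    simp only [Nat.mul_zero, Nat.zero_add] at hq
    by_cases hAB : q ∉ A ∧ q ∉ B
    · obtain ⟨qA, qB⟩ := hAB
      have qL : q ∉ gL n c Z A B := by
        intro h
        have h1 := c1 h
        rw [cL, c0 qZ, c0 qA, c0 qB] at h1
        simp at h1
      have qR : q ∉ gR n c Z A B := by
        intro h
        have h1 := c1 h
        rw [cR, c0 qZ, c0 qA, c0 qB] at h1
        simp at h1
      have f1 : pre w q = p ++ (gL n c Z A B ++ pre R q) := by
        rw [e, MWK.pre_append hqp, MWK.pre_append qL]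
      have f2 : pre w' q = p ++ (gR n c Z A B ++ pre R q) := by
        rw [e', MWK.pre_append hqp, MWK.pre_append qR]
      rw [f1, f2]
      simp only [List.count_append]
      rw [dL, dR, dw, dw']
      rcases hzz with ⟨_, h2, h3, h4⟩ | h2
      · rw [h2, h3, h4]
        refine ⟨?_, ?_, ?_⟩ <;> constructor <;> intro h5 <;> omega
      · refine ⟨?_, ?_, ?_⟩ <;> constructor <;> intro h5 <;> omega
    · -- `q ∈ A` or `q ∈ B`
      have hAB' : q ∈ A ∨ q ∈ B := by tauto
      have sF : s ∈ F := by
        by_contra h
        have e2 : pre R s = F ++ (A ++ (G ++ (B ++ pre H s))) := by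
          rw [hR, MWK.pre_append h, MWK.pre_append sA, MWK.pre_append sG, MWK.pre_append sB]
        rw [e2] at hq
        simp only [List.count_append] at hq
        rcases hAB' with h1 | h1
        · have := c1 h1; omega
        · have := c1 h1; omega
      have e2 : pre R s = pre F s := by rw [hR]; exact MWK.pre_append_mem sF _
      rw [e1, e2, List.count_append, List.count_append, dL, dw, cRr] at hd
      have h3 := MWK.count_pre_le F d s
      have dA : A.count d = 0 := by omega
      have dB : B.count d = 0 := by omega
      have dR0 : R.count d = F.count d := by rw [cRr]; omega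
      rw [dA, dB, dR0] at dw dw'
      rcases hAB' with qA | qB
      · have hA1 := c1 qA
        have qB : q ∉ B := by
          intro h
          have := c1 h
          omega
        have hp : (pre A q).count d = 0 := by
          have := MWK.count_pre_le A d q
          omega
        have f1 : pre w q = p ++ (pw n Z ++ pre A q) := by
          rw [e, MWK.pre_append hqp]
          unfold gL
          simp only [List.append_assoc]
          rw [MWK.pre_append (nmem_pw qZ), MWK.pre_append_mem qA]
        have f2 : pre w' q = p ++ (pw (n + c) Z ++ (B ++ (pw (n + (n - 1) * c) Z ++ pre A q))) := by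
          rw [e', MWK.pre_append hqp]
          unfold gR
          simp only [List.append_assoc]
          rw [MWK.pre_append (nmem_pw qZ), MWK.pre_append qB, MWK.pre_append (nmem_pw qZ),
            MWK.pre_append_mem qA]
        have g1 : (pre w q).count d = p.count d + a1 := by
          rw [f1]
          simp only [List.count_append, count_pw, hp]
          rw [← hzd, ← ha1]
          omega
        have g2 : (pre w' q).count d = p.count d + (2 * a1 + a2 + a3) := by
          rw [f2]
          simp only [List.count_append, count_pw, hp, dB]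
          rw [← hzd, ha1, ha2, ha3]
          ring
        rw [g1, g2, dw, dw']
        rcases hzz with ⟨_, h2, h3, h4⟩ | h2
        · rw [h2, h3, h4]
          refine ⟨?_, ?_, ?_⟩ <;> constructor <;> intro h5 <;> omega
        · refine ⟨?_, ?_, ?_⟩ <;> constructor <;> intro h5 <;> omega
      · have hB1 := c1 qB
        have qA : q ∉ A := by
          intro h
          have := c1 h
          omega
        have hp : (pre B q).count d = 0 := by
          have := MWK.count_pre_le B d q
          omega
        have f1 : pre w q = p ++ (pw n Z ++ (A ++ (pw (n + c) Z ++ pre B q))) := by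
          rw [e, MWK.pre_append hqp]
          unfold gL
          simp only [List.append_assoc]
          rw [MWK.pre_append (nmem_pw qZ), MWK.pre_append qA, MWK.pre_append (nmem_pw qZ),
            MWK.pre_append_mem qB]
        have f2 : pre w' q = p ++ (pw (n + c) Z ++ pre B q) := by
          rw [e', MWK.pre_append hqp]
          unfold gR
          simp only [List.append_assoc]
          rw [MWK.pre_append (nmem_pw qZ), MWK.pre_append_mem qB]
        have g1 : (pre w q).count d = p.count d + (2 * a1 + a2) := by
          rw [f1]
          simp only [List.count_append, count_pw, hp, dA]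
          rw [← hzd, ha1, ha2]
          ring
        have g2 : (pre w' q).count d = p.count d + (a1 + a2) := by
          rw [f2]
          simp only [List.count_append, count_pw, hp]
          rw [← hzd, ha1, ha2]
          ring
        rw [g1, g2, dw, dw']
        rcases hzz with ⟨_, h2, h3, h4⟩ | h2
        · rw [h2, h3, h4]
          refine ⟨?_, ?_, ?_⟩ <;> constructor <;> intro h5 <;> omega
        · refine ⟨?_, ?_, ?_⟩ <;> constructor <;> intro h5 <;> omega

end Pool.Agent.MWGX.H89
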