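import Pool.Agent.MWGX.StmtsA

/-!
# Row ZES of block MWGX (MP_23468a_al): factors of `KZ` words
-/

set_option autoImplicit false

namespace Pool.Agent.MWGX.H89

open Pool.Agent.Helper14_MV Pool.Agent.Helper2_MV
open Pool.Agent.MWK (pre)
open Pool.Agent.MWGN (nn)

theorem zes : ZesStmt := by
  intro w P E Q hw hk ha h3 h4 h12
  obtain ⟨h1, h2⟩ := h12
  have e1 : 1 ≤ E.count 1 := List.count_pos_iff.2 h1
  have e2 : 1 ≤ E.count 2 := List.count_pos_iff.2 h2
  subst hw
  by_cases hP : 4 ∈ P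
  · have p4 : pre (P ++ (E ++ Q)) 4 = pre P 4 := MWK.pre_append_mem hP _
    have a1 : (pre (P ++ (E ++ Q)) 4).count 1 = (P ++ (E ++ Q)).count 1 := ha
    rw [p4, List.count_append, List.count_append] at a1
    have a2 := MWK.count_pre_le P 1 4
    omega
  · have p4 : pre (P ++ (E ++ Q)) 4 = P ++ (E ++ pre Q 4) := by
      rw [MWK.pre_append hP, MWK.pre_append h4]
    have b1 : (pre (P ++ (E ++ Q)) 4).count 2 = 1 := hk.bz
    rw [p4, List.count_append, List.count_append] at b1
    have p3 : pre (P ++ (E ++ Q)) 3 = pre P 3 := MWK.pre_append_mem h3 _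
    have b3 : (pre (P ++ (E ++ Q)) 3).count 2 = 1 := hk.b3
    rw [p3] at b3
    have b2 := MWK.count_pre_le P 2 3
    omega

end Pool.Agent.MWGX.H89
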